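import Pool.Agent.BEW.StmtsP

/-!
# Squad BEW, row POL: polar coordinates
-/

set_option autoImplicit false

namespace Pool.Agent.BEW.H21

open Set Filter Topology MeasureTheory
open scoped InnerProductSpace ENNReal NNReal
open Pool.Agent.BE01 Pool.Agent.BEL Pool.Agent.BEG Pool.Agent.BEH Pool.Agent.BER

noncomputable section

theorem sh_open (d : ℕ) (a b : ℝ) : IsOpen (Sh d a b) := by
  unfold Sh
  exact (isOpen_lt continuous_const continuous_norm).inter
    (isOpen_lt continuous_norm continuous_const)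

theorem sh_fin (d : ℕ) (a b : ℝ) : IsFiniteMeasure (mu (Sh d a b)) := by
  unfold mu
  constructor
  rw [Measure.restrict_apply MeasurableSet.univ, univ_inter]
  refine lt_of_le_of_lt (measure_mono ?_) (Metric.isBounded_ball (x := (0 : En d)) (r := b)).measure_lt_top
  intro x hx
  rw [mem_ball_zero_iff]
  exact hx.2

/-- the constant -/
def pc (d : ℕ) (β : ℝ) : ℝ :=
  (d : ℝ) * volume.real (Metric.ball (0 : En d) 1) * β ^ (d - 1)

theorem pc_pos (d : ℕ) (β : ℝ) (hd : 2 ≤ d) (hβ : 0 < β) : 0 < pc d β := by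
  unfold pc
  have h1 : 0 < volume.real (Metric.ball (0 : En d) 1) := by
    rw [Measure.real, ENNReal.toReal_pos_iff]
    exact ⟨Metric.measure_ball_pos _ _ one_pos, Metric.isBounded_ball.measure_lt_top⟩
  have h2 : (0 : ℝ) < d := by
    have : 0 < d := by omega
    exact_mod_cast this
  positivity

theorem pol_real (hNUF : NufStmt) (d : ℕ) (β : ℝ) (hd : 2 ≤ d) (hβ : 0 < β) (A : Set ℝ)
    (hA : MeasurableSet A) :
    (mu (Sh d β (β + Real.pi))).real ((fun x : En d => ‖x‖) ⁻¹' A) =
      pc d β * (nu d β).real A := by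
  obtain ⟨hfin, -, -, -, hint⟩ := hNUF d β hβ
  have hnt : Nontrivial (En d) := by
    have : Nonempty (Fin d) := ⟨⟨0, by omega⟩⟩
    infer_instance
  have hfr : Module.finrank ℝ (En d) = d := by simp
  have hShm : MeasurableSet (Sh d β (β + Real.pi)) := (sh_open d _ _).measurableSet
  have hpre : MeasurableSet ((fun x : En d => ‖x‖) ⁻¹' A) := measurable_norm hA
  have h1 : (mu (Sh d β (β + Real.pi))).real ((fun x : En d => ‖x‖) ⁻¹' A) =
      ∫ x : En d, (A ∩ Ioo β (β + Real.pi)).indicator (fun _ => (1 : ℝ)) ‖x‖ := by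
    rw [← integral_indicator_one hpre]
    unfold mu
    rw [← integral_indicator hShm]
    congr 1
    funext x
    by_cases hx : x ∈ Sh d β (β + Real.pi)
    · rw [indicator_of_mem hx]
      by_cases hxA : ‖x‖ ∈ A
      · rw [indicator_of_mem (show x ∈ (fun x : En d => ‖x‖) ⁻¹' A from hxA),
          indicator_of_mem (show ‖x‖ ∈ A ∩ Ioo β (β + Real.pi) from ⟨hxA, hx⟩)]
        rfl
      · rw [indicator_of_notMem (show x ∉ (fun x : En d => ‖x‖) ⁻¹' A from hxA),
          indicator_of_notMem (show ‖x‖ ∉ A ∩ Ioo β (β + Real.pi) from fun h => hxA h.1)]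
    · rw [indicator_of_notMem hx,
        indicator_of_notMem (show ‖x‖ ∉ A ∩ Ioo β (β + Real.pi) from fun h => hx h.2)]
  have h2 : (nu d β).real A = ∫ r in Ioo β (β + Real.pi),
      A.indicator (fun _ => (1 : ℝ)) r * (r / β) ^ (d - 1) := by
    rw [← hint, ← integral_indicator_one hA]
    rfl
  rw [h1, h2, integral_fun_norm_addHaar (μ := (volume : Measure (En d))), hfr]
  have h3 : ∫ y in Ioi (0 : ℝ), y ^ (d - 1) •
      (A ∩ Ioo β (β + Real.pi)).indicator (fun _ => (1 : ℝ)) y =
      β ^ (d - 1) * ∫ r in Ioo β (β + Real.pi),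
        A.indicator (fun _ => (1 : ℝ)) r * (r / β) ^ (d - 1) := by
    rw [← integral_const_mul, ← integral_indicator measurableSet_Ioi,
      ← integral_indicator measurableSet_Ioo]
    congr 1
    funext y
    by_cases hy : y ∈ Ioo β (β + Real.pi)
    · have hy0 : y ∈ Ioi (0 : ℝ) := hβ.trans hy.1
      rw [indicator_of_mem hy0, indicator_of_mem hy, smul_eq_mul]
      have h4 : y ^ (d - 1) = β ^ (d - 1) * (y / β) ^ (d - 1) := by
        rw [← mul_pow, mul_div_cancel₀ _ hβ.ne']
      by_cases hyA : y ∈ A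
      · rw [indicator_of_mem (show y ∈ A ∩ Ioo β (β + Real.pi) from ⟨hyA, hy⟩),
          indicator_of_mem hyA, h4]
        ring
      · rw [indicator_of_notMem (show y ∉ A ∩ Ioo β (β + Real.pi) from fun h => hyA h.1),
          indicator_of_notMem hyA]
        ring
    · rw [indicator_of_notMem hy]
      by_cases hy0 : y ∈ Ioi (0 : ℝ)
      · rw [indicator_of_mem hy0,
          indicator_of_notMem (show y ∉ A ∩ Ioo β (β + Real.pi) from fun h => hy h.2),
          smul_zero]
      · rw [indicator_of_notMem hy0]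
  rw [h3]
  unfold pc
  simp only [nsmul_eq_mul, smul_eq_mul]
  ring

theorem pol_map (hNUF : NufStmt) (d : ℕ) (β : ℝ) (hd : 2 ≤ d) (hβ : 0 < β) :
    (mu (Sh d β (β + Real.pi))).map (fun x : En d => ‖x‖) =
      ENNReal.ofReal (pc d β) • nu d β := by
  have hfin := (hNUF d β hβ).1
  have hfin2 := sh_fin d β (β + Real.pi)
  apply Measure.ext
  intro A hA
  rw [Measure.map_apply measurable_norm hA, Measure.smul_apply, smul_eq_mul]
  have h1 := pol_real hNUF d β hd hβ A hA
  rw [Measure.real, Measure.real] at h1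
  rw [← ENNReal.toReal_eq_toReal_iff' (measure_ne_top _ _)
    (ENNReal.mul_ne_top ENNReal.ofReal_ne_top (measure_ne_top _ _)), ENNReal.toReal_mul,
    ENNReal.toReal_ofReal (pc_pos d β hd hβ).le]
  exact h1

theorem pol (hNUF : NufStmt) : PolStmt := by
  intro d β hd hβ
  have hfin := (hNUF d β hβ).1
  have hm := pc_pos d β hd hβ
  have hmap := pol_map hNUF d β hd hβ
  have hac : ∀ p : ℝ → Prop, (∀ᵐ r ∂(nu d β), p r) →
      ∀ᵐ x ∂(mu (Sh d β (β + Real.pi))), p ‖x‖ := by
    intro p hp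
    have h1 : ∀ᵐ r ∂((mu (Sh d β (β + Real.pi))).map (fun x : En d => ‖x‖)), p r := by
      rw [hmap]
      exact Measure.ae_smul_measure hp _
    exact ae_of_ae_map measurable_norm.aemeasurable h1
  have hmemap : ∀ f : Lp ℝ 2 (nu d β),
      MemLp f 2 ((mu (Sh d β (β + Real.pi))).map (fun x : En d => ‖x‖)) := by
    intro f
    rw [hmap]
    exact (Lp.memLp f).smul_measure ENNReal.ofReal_ne_top
  have hmem : ∀ f : Lp ℝ 2 (nu d β),
      MemLp (fun x : En d => f ‖x‖) 2 (mu (Sh d β (β + Real.pi))) := by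
    intro f
    exact (memLp_map_measure_iff (hmemap f).1 measurable_norm.aemeasurable).1 (hmemap f)
  have hnorm : ∀ f : Lp ℝ 2 (nu d β), ‖(hmem f).toLp _‖ ^ 2 = pc d β * ‖f‖ ^ 2 := by
    intro f
    rw [Lp.norm_toLp, Lp.norm_def]
    have h2 : eLpNorm (fun x : En d => f ‖x‖) 2 (mu (Sh d β (β + Real.pi))) =
        eLpNorm f 2 ((mu (Sh d β (β + Real.pi))).map (fun x : En d => ‖x‖)) :=
      (eLpNorm_map_measure (hmemap f).1 measurable_norm.aemeasurable).symm
    rw [h2, hmap, eLpNorm_smul_measure_of_ne_zero (by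
      simpa using hm), smul_eq_mul, ENNReal.toReal_mul, mul_pow]
    congr 1
    rw [← ENNReal.toReal_rpow, ENNReal.toReal_ofReal hm.le, ← Real.rpow_natCast,
      ← Real.rpow_mul hm.le]
    norm_num
  let J0 : Lp ℝ 2 (nu d β) →ₗ[ℝ] Lp ℝ 2 (mu (Sh d β (β + Real.pi))) :=
    { toFun := fun f => (hmem f).toLp _
      map_add' := fun f g => by
        apply Lp.ext
        filter_upwards [MemLp.coeFn_toLp (hmem (f + g)), MemLp.coeFn_toLp (hmem f),
          MemLp.coeFn_toLp (hmem g), hac _ (Lp.coeFn_add f g),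
          Lp.coeFn_add ((hmem f).toLp _) ((hmem g).toLp _)] with x h1 h2 h3 h4 h5
        rw [h1, h4, h5, Pi.add_apply, Pi.add_apply, h2, h3]
      map_smul' := fun c f => by
        apply Lp.ext
        filter_upwards [MemLp.coeFn_toLp (hmem (c • f)), MemLp.coeFn_toLp (hmem f),
          hac _ (Lp.coeFn_smul c f), Lp.coeFn_smul c ((hmem f).toLp _)] with x h1 h2 h3 h4
        rw [h1, h3]
        simp only [RingHom.id_apply]
        rw [h4, Pi.smul_apply, Pi.smul_apply, h2] }
  have hJ0 : ∀ f, ‖J0 f‖ ^ 2 = pc d β * ‖f‖ ^ 2 := hnorm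
  refine ⟨pc d β, J0.mkContinuous (Real.sqrt (pc d β)) ?_, hm, hac, ?_, ?_⟩
  · intro f
    rw [← pow_le_pow_iff_left₀ (norm_nonneg _) (by positivity) two_ne_zero, mul_pow,
      Real.sq_sqrt hm.le, hJ0]
  · intro f
    exact MemLp.coeFn_toLp (hmem f)
  · intro f
    exact hJ0 f

end

end Pool.Agent.BEW.H21
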